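import Mathlib

/-!
# Semi-Eberlein compacta: the decomposition property can fail for every dense subset

Negative answer to Q1 of MP_abc717_gt.  The example is
`K = {(x,w) ∈ {0,1}^{ω₁} × {0,1}^{ω₁} : w has at most one 1, and w(l) = 1 implies x(i) = 1 for i < l}`.
-/

open Set Topology Filter

universe u

namespace Pool.Agent.Results.MP_abc717_gt.NoDecomposition

/-- The cube `[-1,1]^I`. -/
def Cube (I : Type u) : Set (I → ℝ) := {x | ∀ i, x i ∈ Icc (-1 : ℝ) 1}

/-- `Σ(I)`: the points of `[-1,1]^I` with countable support. -/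
def SigmaSet (I : Type u) : Set (I → ℝ) := {x | x ∈ Cube I ∧ {i | x i ≠ 0}.Countable}

/-- `c_0(Γ)` as a subset of `ℝ^Γ`. -/
def CZero (Γ : Type u) : Set (Γ → ℝ) := {x | ∀ ε : ℝ, 0 < ε → {γ | ε < |x γ|}.Finite}

/-- A topological space `X` is semi-Eberlein: it is compact Hausdorff and for some set `Γ` there is a
topological embedding `h : X → [0,1]^Γ` with `h(X) ∩ c_0(Γ)` dense in `h(X)`. -/
def SemiEberlein (X : Type u) [TopologicalSpace X] : Prop :=
  CompactSpace X ∧ T2Space X ∧ ∃ (Γ : Type u) (h : X → Γ → ℝ),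
    IsEmbedding h ∧ (∀ x γ, h x γ ∈ Icc (0 : ℝ) 1) ∧ range h ⊆ closure (range h ∩ CZero Γ)

section construction

variable {W : Type u} [LinearOrder W]

/-- The compact set of the example, over a linearly ordered index set `W`. -/
def exK (W : Type u) [LinearOrder W] : Set (W ⊕ W → ℝ) :=
  {z | (∀ i, z i = 0 ∨ z i = 1) ∧
    (∀ l m : W, l ≠ m → z (Sum.inr l) = 0 ∨ z (Sum.inr m) = 0) ∧
    (∀ l i : W, i < l → z (Sum.inr l) = 0 ∨ z (Sum.inl i) = 1)}

lemma exK_subset_cube : exK W ⊆ Cube (W ⊕ W) := by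
  intro z hz i
  rcases hz.1 i with h | h <;> rw [h] <;> constructor <;> norm_num

lemma isClosed_exK : IsClosed (exK W) := by
  have h0 : ∀ (i : W ⊕ W) (c : ℝ), IsClosed {z : W ⊕ W → ℝ | z i = c} := fun i c =>
    isClosed_eq (continuous_apply i) continuous_const
  have h1 : IsClosed {z : W ⊕ W → ℝ | ∀ i, z i = 0 ∨ z i = 1} := by
    simp only [setOf_forall, setOf_or]
    exact isClosed_iInter fun i => (h0 i 0).union (h0 i 1)
  have h2 : IsClosed {z : W ⊕ W → ℝ | ∀ l m : W, l ≠ m → z (Sum.inr l) = 0 ∨ z (Sum.inr m) = 0} := by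
    simp only [setOf_forall, setOf_or]
    exact isClosed_iInter fun l => isClosed_iInter fun m => isClosed_iInter fun _ =>
      (h0 _ 0).union (h0 _ 0)
  have h3 : IsClosed {z : W ⊕ W → ℝ | ∀ l i : W, i < l → z (Sum.inr l) = 0 ∨ z (Sum.inl i) = 1} := by
    simp only [setOf_forall, setOf_or]
    exact isClosed_iInter fun l => isClosed_iInter fun m => isClosed_iInter fun _ =>
      (h0 _ 0).union (h0 _ 1)
  exact h1.inter (h2.inter h3)

lemma isCompact_exK : IsCompact (exK W) := by
  have h : IsCompact (Set.pi univ fun _ : W ⊕ W => Icc (-1 : ℝ) 1) :=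
    isCompact_univ_pi fun _ => isCompact_Icc
  exact h.of_isClosed_subset isClosed_exK fun z hz i _ => exK_subset_cube hz i

/-- A point whose coordinates are eventually (along finite sets of coordinates) those of members of
`S` lies in the closure of `S`. -/
lemma mem_closure_of_approx {I : Type u} {S : Set (I → ℝ)} {z : I → ℝ} (f : Finset I → I → ℝ)
    (hf : ∀ F, f F ∈ S) (hz : ∀ i, ∀ F : Finset I, i ∈ F → f F i = z i) : z ∈ closure S := by
  refine mem_closure_of_tendsto (f := f) (b := atTop) ?_ (Eventually.of_forall hf)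
  refine tendsto_pi_nhds.2 fun i => ?_
  refine tendsto_const_nhds.congr' ?_
  filter_upwards [eventually_ge_atTop ({i} : Finset I)] with F hF
  exact (hz i F (hF (Finset.mem_singleton_self i))).symm

open Classical in
/-- Approximations with countable support. -/
noncomputable def apA (z : W ⊕ W → ℝ) (F : Finset (W ⊕ W)) : W ⊕ W → ℝ
  | Sum.inl i => if Sum.inl i ∈ F ∨ ∃ l, z (Sum.inr l) ≠ 0 ∧ i < l then z (Sum.inl i) else 0
  | Sum.inr l => z (Sum.inr l)

open Classical in
/-- Approximations which are `1` off a finite set of left coordinates. -/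
noncomputable def apB (z : W ⊕ W → ℝ) (F : Finset (W ⊕ W)) : W ⊕ W → ℝ
  | Sum.inl i => if Sum.inl i ∈ F then z (Sum.inl i) else 1
  | Sum.inr l => z (Sum.inr l)

lemma apA_mem {z : W ⊕ W → ℝ} (hz : z ∈ exK W) (F : Finset (W ⊕ W)) : apA z F ∈ exK W := by
  refine ⟨?_, ?_, ?_⟩
  · rintro (i | l)
    · simp only [apA]
      split_ifs
      · exact hz.1 _
      · exact Or.inl rfl
    · exact hz.1 _
  · intro l m hlm
    exact hz.2.1 l m hlm
  · intro l i hil
    by_cases h0 : z (Sum.inr l) = 0
    · exact Or.inl h0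
    · right
      simp only [apA]
      rw [if_pos (Or.inr ⟨l, h0, hil⟩)]
      exact (hz.2.2 l i hil).resolve_left h0

lemma apB_mem {z : W ⊕ W → ℝ} (hz : z ∈ exK W) (F : Finset (W ⊕ W)) : apB z F ∈ exK W := by
  refine ⟨?_, ?_, ?_⟩
  · rintro (i | l)
    · simp only [apB]
      split_ifs
      · exact hz.1 _
      · exact Or.inr rfl
    · exact hz.1 _
  · intro l m hlm
    exact hz.2.1 l m hlm
  · intro l i hil
    rcases hz.2.2 l i hil with h | h
    · exact Or.inl h
    · right
      simp only [apB]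
      split_ifs
      · exact h
      · rfl

lemma inr_support_subsingleton {z : W ⊕ W → ℝ} (hz : z ∈ exK W) :
    {l : W | z (Sum.inr l) ≠ 0}.Subsingleton := by
  intro l hl m hm
  by_contra hne
  rcases hz.2.1 l m hne with h | h
  · exact hl h
  · exact hm h

lemma apA_countable (hW : ∀ l : W, (Iio l).Countable) {z : W ⊕ W → ℝ} (hz : z ∈ exK W)
    (F : Finset (W ⊕ W)) : {i | apA z F i ≠ 0}.Countable := by
  have hs := inr_support_subsingleton hz
  have h1 : (Sum.inr '' {l : W | z (Sum.inr l) ≠ 0} : Set (W ⊕ W)).Countable :=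
    hs.finite.countable.image _
  have h2 : (Sum.inl '' (⋃ l ∈ {l : W | z (Sum.inr l) ≠ 0}, Iio l) : Set (W ⊕ W)).Countable :=
    (hs.finite.countable.biUnion fun l _ => hW l).image _
  refine ((F.countable_toSet.union h1).union h2).mono ?_
  rintro (i | l) hi
  · simp only [apA, mem_setOf_eq, ne_eq] at hi
    split_ifs at hi with h
    · rcases h with h | ⟨l, hl, hil⟩
      · exact Or.inl (Or.inl h)
      · refine Or.inr ⟨i, ?_, rfl⟩
        simp only [mem_iUnion]
        exact ⟨l, hl, hil⟩
    · exact absurd rfl hi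
  · exact Or.inl (Or.inr ⟨l, hi, rfl⟩)

/-- The flip of the left coordinates. -/
def flip (z : W ⊕ W → ℝ) : W ⊕ W → ℝ
  | Sum.inl i => 1 - z (Sum.inl i)
  | Sum.inr l => z (Sum.inr l)

lemma continuous_flip : Continuous (flip (W := W)) := by
  refine continuous_pi ?_
  rintro (i | l)
  · exact continuous_const.sub (continuous_apply _)
  · exact continuous_apply _

lemma flip_flip (z : W ⊕ W → ℝ) : flip (flip z) = z := by
  funext i
  rcases i with i | l
  · simp [flip]
  · simp [flip]

lemma isEmbedding_flip : IsEmbedding (flip (W := W)) :=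
  Function.LeftInverse.isEmbedding (f := flip) flip_flip continuous_flip continuous_flip

lemma flip_apB_mem_CZero {z : W ⊕ W → ℝ} (hz : z ∈ exK W) (F : Finset (W ⊕ W)) :
    flip (apB z F) ∈ CZero (W ⊕ W) := by
  intro ε hε
  have hs := inr_support_subsingleton hz
  have h1 : (Sum.inr '' {l : W | z (Sum.inr l) ≠ 0} : Set (W ⊕ W)).Finite := hs.finite.image _
  refine (F.finite_toSet.union h1).subset ?_
  rintro (i | l) hi
  · left
    by_contra h
    have h' : Sum.inl i ∉ F := h
    simp [flip, apB, h'] at hi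
    linarith
  · right
    refine ⟨l, ?_, rfl⟩
    intro h
    simp [flip, apB, h] at hi
    linarith

lemma semiEberlein_exK : SemiEberlein (exK W) := by
  refine ⟨isCompact_iff_compactSpace.1 isCompact_exK, inferInstance, W ⊕ W,
    fun z => flip z.1, isEmbedding_flip.comp IsEmbedding.subtypeVal, ?_, ?_⟩
  · rintro ⟨z, hz⟩ (i | l)
    · rcases hz.1 (Sum.inl i) with h | h <;> simp [flip, h]
    · rcases hz.1 (Sum.inr l) with h | h <;> simp [flip, h]
  · rintro _ ⟨⟨z, hz⟩, rfl⟩
    refine mem_closure_of_approx (fun F => flip (apB z F)) ?_ ?_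
    · intro F
      exact ⟨⟨⟨apB z F, apB_mem hz F⟩, rfl⟩, flip_apB_mem_CZero hz F⟩
    · rintro (i | l) F hi
      · simp [flip, apB, hi]
      · simp [flip, apB]

lemma sigma_dense_exK (hW : ∀ l : W, (Iio l).Countable) :
    exK W ⊆ closure (SigmaSet (W ⊕ W) ∩ exK W) := by
  intro z hz
  refine mem_closure_of_approx (apA z) ?_ ?_
  · intro F
    exact ⟨⟨exK_subset_cube (apA_mem hz F), apA_countable hW hz F⟩, apA_mem hz F⟩
  · rintro (i | l) F hi
    · simp [apA, hi]
    · simp [apA]

/-- The point of `exK` with `w = e_l` and `x` identically `1`. -/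
lemma exists_mem_exK (l : W) : ∃ z ∈ exK W, z (Sum.inr l) = 1 := by
  classical
  refine ⟨Sum.elim (fun _ => 1) (fun m => if m = l then 1 else 0), ⟨?_, ?_, ?_⟩, ?_⟩
  · rintro (i | m)
    · exact Or.inr rfl
    · simp only [Sum.elim_inr]
      split_ifs
      · exact Or.inr rfl
      · exact Or.inl rfl
  · intro a b hab
    simp only [Sum.elim_inr]
    by_cases ha : a = l
    · right
      rw [if_neg]
      intro hb
      exact hab (ha.trans hb.symm)
    · left
      rw [if_neg ha]
  · intro a b _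
    right
    rfl
  · simp

lemma no_decomposition [Uncountable W] (hW : ∀ l : W, (Iio l).Countable)
    (D : Set (W ⊕ W → ℝ)) (hD : D ⊆ exK W) (hdense : exK W ⊆ closure D)
    (J : ℕ → Set (W ⊕ W)) (hJ : (⋃ n, J n) = univ) :
    ∃ n, ∃ x ∈ D, {i | i ∈ J n ∧ (1 / 2 : ℝ) < |x i|}.Infinite := by
  -- some `J n` contains infinitely many left coordinates
  have h1 : ∃ n, {i : W | Sum.inl i ∈ J n}.Infinite := by
    by_contra hcon
    push Not at hcon
    have hc : (univ : Set W).Countable := by
      have : (univ : Set W) = ⋃ n, {i : W | Sum.inl i ∈ J n} := by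
        ext i
        simp only [mem_univ, mem_iUnion, mem_setOf_eq, true_iff]
        have := mem_univ (Sum.inl i : W ⊕ W)
        rw [← hJ] at this
        simpa using this
      rw [this]
      exact countable_iUnion fun n => (hcon n).countable
    exact not_countable_univ hc
  obtain ⟨n, hn⟩ := h1
  obtain ⟨S, hSsub, hSinf, hScount⟩ : ∃ S ⊆ {i : W | Sum.inl i ∈ J n}, S.Infinite ∧ S.Countable := by
    let e := hn.natEmbedding
    refine ⟨range fun k => ((e k : {i : W | Sum.inl i ∈ J n}) : W), ?_, ?_, countable_range _⟩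
    · rintro _ ⟨k, rfl⟩
      exact (e k).2
    · exact infinite_range_of_injective (Subtype.val_injective.comp e.injective)
  -- `S` is bounded
  obtain ⟨l, hl⟩ : ∃ l : W, ∀ s ∈ S, s < l := by
    by_contra hcon
    push Not at hcon
    have : (univ : Set W) ⊆ ⋃ s ∈ S, Iic s := by
      intro a _
      obtain ⟨s, hs, has⟩ := hcon a
      simp only [mem_iUnion]
      exact ⟨s, hs, has⟩
    have hc : (⋃ s ∈ S, Iic s).Countable := by
      refine hScount.biUnion fun s _ => ?_
      rw [← Iio_union_right]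
      exact (hW s).union (countable_singleton s)
    exact not_countable_univ (hc.mono this)
  -- a point of `D` with `w(l) = 1`
  obtain ⟨z, hz, hzl⟩ := exists_mem_exK l
  have hopen : IsOpen {y : W ⊕ W → ℝ | 0 < y (Sum.inr l)} :=
    isOpen_lt continuous_const (continuous_apply _)
  obtain ⟨y, hy0, hyD⟩ := mem_closure_iff.1 (hdense hz) _ hopen
    (by simp only [mem_setOf_eq, hzl]; norm_num)
  refine ⟨n, y, hyD, ?_⟩
  refine (hSinf.image (f := Sum.inl) (fun a _ b _ h => Sum.inl_injective h)).mono ?_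
  rintro _ ⟨s, hs, rfl⟩
  refine ⟨hSsub hs, ?_⟩
  have hy1 : y (Sum.inl s) = 1 := by
    rcases (hD hyD).2.2 l s (hl s hs) with h | h
    · have : 0 < y (Sum.inr l) := hy0
      rw [h] at this
      exact absurd this (lt_irrefl _)
    · exact h
  rw [hy1]
  norm_num

end construction

/-- **Negative answer to Q1.** There are a set `I` and a compact `K ⊆ [-1,1]^I` which is
semi-Eberlein and in which `Σ(I) ∩ K` is dense, such that for every `D ⊆ Σ(I) ∩ K` dense in `K` there
is `ε > 0` such that every decomposition `I = ⋃ J n` into countably many sets has some `n` and some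
`x ∈ D` with `{i ∈ J n : |x i| > ε}` infinite. -/
theorem result : ∃ (I : Type u) (K : Set (I → ℝ)),
    K ⊆ Cube I ∧ IsCompact K ∧ K ⊆ closure (SigmaSet I ∩ K) ∧ SemiEberlein K ∧
    ∀ D : Set (I → ℝ), D ⊆ SigmaSet I ∩ K → K ⊆ closure D →
      ∃ ε : ℝ, 0 < ε ∧ ∀ J : ℕ → Set I, (⋃ n, J n) = univ →
        ∃ n, ∃ x ∈ D, {i | i ∈ J n ∧ ε < |x i|}.Infinite := by
  let W : Type u := (Cardinal.aleph.{u} 1).ord.ToType
  have hcard : Cardinal.mk W = Cardinal.aleph 1 := Cardinal.mk_ord_toType _
  haveI : Uncountable W := by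
    rw [← Cardinal.aleph0_lt_mk_iff, hcard]
    exact Cardinal.aleph0_lt_aleph_one
  have hW : ∀ l : W, (Iio l).Countable := by
    intro l
    have h := Cardinal.mk_Iio_toType_ord_lt l
    exact (Cardinal.countable_iff_lt_aleph_one _).2 h
  refine ⟨W ⊕ W, exK W, exK_subset_cube, isCompact_exK, sigma_dense_exK hW, semiEberlein_exK, ?_⟩
  intro D hD hdense
  exact ⟨1 / 2, by norm_num, fun J hJ =>
    no_decomposition hW D (fun x hx => (hD hx).2) hdense J hJ⟩

end Pool.Agent.Results.MP_abc717_gt.NoDecomposition
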